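import Pool.Agent.MP_c24244_an.H97.Proof

set_option autoImplicit false

open Pool.Agent.MP_c24244_an.H97

namespace Pool.Agent.Results.MP_c24244_an.Disproof

theorem result :
    ¬ ∀ (ρ : ℝ), 0 ≤ ρ → ρ < 1 →
      ∀ (X Y : Type) [NormedAddCommGroup X] [NormedSpace ℝ X] [CompleteSpace X]
        [NormedAddCommGroup Y] [NormedSpace ℝ Y] [CompleteSpace Y],
        HasBeta Y ρ → ∀ ε : ℝ, 0 < ε → ε < 1 →
          PhiS X Y ε ≤ min (√(2 * ε) * √((1 + ρ) / (1 - ρ))) 1 := by
  intro H
  have : CompleteSpace W := FiniteDimensional.complete ℝ W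
  have h := H (5 / 7) (by norm_num) (by norm_num) L W hasBeta (19 / 20) (by norm_num) (by norm_num)
  have h1 := PhiS_lower.trans (h.trans (min_le_right _ _))
  norm_num at h1

end Pool.Agent.Results.MP_c24244_an.Disproof
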